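import Pool.Agent.AEC.StmtsB

/-!
Row DAM of squad AEC: a common direction gives an amalgam.
-/

open FirstOrder FirstOrder.Language Cardinal Set

universe u

namespace Pool.Agent.AEC.H72

theorem dam (amo : AmoStmt.{u}) : DamStmt.{u} := by
  intro L κ K E X A B e ι C f σ h
  have h' : ∀ i, ∃ (I : Type u) (lo : LinearOrder I) (v : σ.1.s ↪o I)
      (g : K.Hom (C i) (E.obj I)), ∀ x : A.α, g (((f i).comp e) x) = E.map v (σ.2 x) := h
  choose I lo v g hg using h'
  obtain ⟨Z, lz, w, hw⟩ := amo σ.1.s ι I v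
  refine ⟨E.obj Z, fun i => (E.map (w i)).comp (g i), ?_⟩
  intro i j x
  have key : ∀ i, ((E.map (w i)).comp (g i)) (f i (e x))
      = E.map ((v i).trans (w i)) (σ.2 x) := by
    intro i
    have h1 : ((E.map (w i)).comp (g i)) (f i (e x)) = E.map (w i) (g i (((f i).comp e) x)) := rfl
    rw [h1, hg i x]
    exact (E.map_comp (v i) (w i) ((v i).trans (w i)) (fun _ => rfl) (σ.2 x)).symm
  rw [key i, key j]
  have h2 : (v i).trans (w i) = (v j).trans (w j) := by
    ext y
    exact hw i j y
  rw [h2]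

end Pool.Agent.AEC.H72
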